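import Mathlib
import Pool.Agent.Helper85.DeltaGamma

/-!
# The Gerlits-Nagy delta-property does not imply the gamma-property for `T₁` spaces
-/

namespace Pool.Agent.Results.MP_91e6fa_gt.ClassicalCounterexample

open Pool.Agent.Helper85.DeltaGamma

/-- There is a `T₁` space which has the classical (Gerlits-Nagy) delta-property but not the
classical gamma-property. -/
theorem result : ∃ (X : Type) (_ : TopologicalSpace X), T1Space X ∧
    HasClassicalDelta X ∧ ¬ HasClassicalGamma X :=
  ⟨Pt, inferInstance, inferInstance, fun _ h𝓤 => closure_univ (fun _ => le_rfl) h𝓤,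
    not_hasClassicalGamma⟩

end Pool.Agent.Results.MP_91e6fa_gt.ClassicalCounterexample
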