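import Mathlib
import Pool.Agent.Helper85.DT.Main

/-!
# Which ultrafilter gamma-properties follow from the classical delta-property
-/

namespace Pool.Agent.Results.MP_91e6fa_gt.IteratedFrechet

open Pool.Agent.Helper85.DeltaGamma Pool.Agent.Helper85.DT

/-- For every ultrafilter `q` on `ℕ` the following are equivalent: every topological space with
the classical (Gerlits-Nagy) delta-property has property `γ_q`; every `T₁` space with the
classical delta-property has property `γ_q`; for every iterated Frechet filter `𝓕` there is a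
function `f` with `f ⁻¹' A ∈ q` for all `A ∈ 𝓕`.  If this fails then some `T₁` space has property
`δ_p` for every nonprincipal ultrafilter `p` but fails property `γ_q`. -/
theorem result (q : Ultrafilter ℕ) :
    List.TFAE [
      ∀ (X : Type) [TopologicalSpace X], HasClassicalDelta X → HasGamma X q,
      ∀ (X : Type) [TopologicalSpace X] [T1Space X], HasClassicalDelta X → HasGamma X q,
      ∀ 𝓕 : Set (Set ℕ), IterFrechet 𝓕 → ∃ f : ℕ → ℕ, ∀ A ∈ 𝓕, f ⁻¹' A ∈ q] ∧
    ((∃ 𝓕 : Set (Set ℕ), IterFrechet 𝓕 ∧ ∀ f : ℕ → ℕ, ∃ A ∈ 𝓕, f ⁻¹' A ∉ q) →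
      ∃ (X : Type) (_ : TopologicalSpace X), T1Space X ∧
        (∀ p : Ultrafilter ℕ, Nonprincipal p → HasDelta X p) ∧ ¬ HasGamma X q) := by
  refine ⟨?_, ?_⟩
  · tfae_have 1 → 2 := fun h X _ _ hX => h X hX
    tfae_have 2 → 3 := by
      intro h 𝓕 h𝓕
      obtain ⟨X, _, hT, hδ, -, hγ⟩ := exists_space h𝓕
      exact hγ q (h X hδ)
    tfae_have 3 → 1 := fun h X _ hX => hasGamma_of_above h X hX
    tfae_finish
  · rintro ⟨𝓕, h𝓕, hf⟩
    obtain ⟨X, i, hT, -, hδ, hγ⟩ := exists_space h𝓕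
    refine ⟨X, i, hT, hδ, fun h => ?_⟩
    obtain ⟨f, h1⟩ := hγ q h
    obtain ⟨A, hA, hn⟩ := hf f
    exact hn (h1 A hA)

end Pool.Agent.Results.MP_91e6fa_gt.IteratedFrechet
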