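import Mathlib
import Pool.Agent.Helper85.DeltaGamma

/-!
# A `T₁` space with the ultrafilter delta-property for every ultrafilter which fails the
ultrafilter gamma-property at every P-point
-/

namespace Pool.Agent.Results.MP_91e6fa_gt.PPointCounterexample

open Pool.Agent.Helper85.DeltaGamma

/-- There is a `T₁` space which has property `δ_p` for every (nonprincipal) ultrafilter `p`, but
which fails property `γ_q` for every P-point `q`. -/
theorem result : ∃ (X : Type) (_ : TopologicalSpace X), T1Space X ∧
    (∀ p : Ultrafilter ℕ, Nonprincipal p → HasDelta X p) ∧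
    (∀ q : Ultrafilter ℕ, IsPPoint q → ¬ HasGamma X q) :=
  ⟨Pt, inferInstance, inferInstance, fun _ hp _ h𝓤 => closure_univ (absorbing_plim hp) h𝓤,
    fun _ hq => not_hasGamma hq⟩

end Pool.Agent.Results.MP_91e6fa_gt.PPointCounterexample
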